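import Pool.Agent.H45.SF.GT

/-!
# MP_3b3fc8_lc, module RS: the regular open algebra of a preorder
-/

set_option autoImplicit false

open Ordinal Cardinal Order Set
open scoped ZFSet

namespace SF

theorem rs_mkEl {B : V} [IsCBA B] {x : V} (h : x ∈ B) : mkEl B x = ⟨x, h⟩ := by
  unfold mkEl
  exact dif_pos h

section

variable {P : V} {le : V → V → Prop}

theorem rs_sub (X : El (RO P le)) {p : V} (hp : p ∈ X.val) : p ∈ P := (mem_RO.1 X.mem).1 hp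

theorem rs_down (X : El (RO P le)) {p q : V} (hp : p ∈ X.val) (hq : q ∈ P) (h : le q p) :
    q ∈ X.val := (mem_RO.1 X.mem).2.1 p hp q hq h

theorem rs_reg (X : El (RO P le)) {p : V} (hp : p ∈ P)
    (h : ∀ q ∈ P, le q p → ∃ r ∈ X.val, le r q) : p ∈ X.val := (mem_RO.1 X.mem).2.2 p hp h

/-- construction of regular open sets -/
theorem rs_mk (φ : V → Prop) (h1 : ∀ p ∈ P, φ p → ∀ q ∈ P, le q p → φ q)
    (h2 : ∀ p ∈ P, (∀ q ∈ P, le q p → ∃ r ∈ P, φ r ∧ le r q) → φ p) :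
    ∃ E : El (RO P le), ∀ z, z ∈ E.val ↔ z ∈ P ∧ φ z := by
  have hE : P.sep φ ∈ RO P le := by
    refine mem_RO.2 ⟨fun z hz => (ZFSet.mem_sep.1 hz).1, ?_, ?_⟩
    · intro p hp q hq hqp
      obtain ⟨h3, h4⟩ := ZFSet.mem_sep.1 hp
      exact ZFSet.mem_sep.2 ⟨hq, h1 p h3 h4 q hq hqp⟩
    · intro p hp h
      refine ZFSet.mem_sep.2 ⟨hp, h2 p hp fun q hq hqp => ?_⟩
      obtain ⟨r, hr1, hr2⟩ := h q hq hqp
      obtain ⟨h3, h4⟩ := ZFSet.mem_sep.1 hr1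
      exact ⟨r, h3, h4, hr2⟩
  exact ⟨⟨_, hE⟩, fun z => ZFSet.mem_sep⟩

variable (hr : ∀ p ∈ P, le p p)
  (ht : ∀ p ∈ P, ∀ q ∈ P, ∀ r ∈ P, le p q → le q r → le p r)

include hr ht in
theorem rs_iSup [IsCBA (RO P le)] {ι : Type*} (f : ι → El (RO P le)) (X : El (RO P le)) :
    X ≤ ⨆ i, f i ↔ ∀ p ∈ X.val, ∃ q ∈ P, le q p ∧ ∃ i, q ∈ (f i).val := by
  obtain ⟨E, hE⟩ := rs_mk (P := P) (le := le)
    (fun p => ∀ r ∈ P, le r p → ∃ q ∈ P, le q r ∧ ∃ i, q ∈ (f i).val)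
    (fun p hp h q hq hqp r hr' hrq => h r hr' (ht r hr' q hq p hp hrq hqp))
    (fun p hp h r hr' hrp => by
      obtain ⟨t, htP, h2, htr⟩ := h r hr' hrp
      obtain ⟨s, hs, hst, i, hi⟩ := h2 t htP (hr t htP)
      exact ⟨s, hs, ht s hs t htP r hr' hst htr, i, hi⟩)
  have h1 : (⨆ i, f i) = E := by
    apply le_antisymm
    · refine iSup_le fun i => El.le_iff.2 fun z hz => ?_
      refine (hE z).2 ⟨rs_sub _ hz, fun r hr' hrz => ⟨r, hr', hr r hr', i, ?_⟩⟩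
      exact rs_down _ hz hr' hrz
    · refine El.le_iff.2 fun z hz => ?_
      obtain ⟨h1, h2⟩ := (hE z).1 hz
      refine rs_reg _ h1 fun q hq hqz => ?_
      obtain ⟨s, hs, hsq, i, hi⟩ := h2 q hq hqz
      exact ⟨s, El.le_iff.1 (le_iSup f i) hi, hsq⟩
  rw [h1]
  constructor
  · intro h p hp
    obtain ⟨h2, h3⟩ := (hE p).1 (El.le_iff.1 h hp)
    exact h3 p h2 (hr p h2)
  · intro h
    refine El.le_iff.2 fun z hz => (hE z).2 ⟨rs_sub _ hz, fun r hr' hrz => ?_⟩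
    exact h r (rs_down _ hz hr' hrz)

theorem rs_iInf [IsCBA (RO P le)] {ι : Type*} (f : ι → El (RO P le)) (p : V) :
    p ∈ (⨅ i, f i).val ↔ p ∈ P ∧ ∀ i, p ∈ (f i).val := by
  obtain ⟨E, hE⟩ := rs_mk (P := P) (le := le) (fun p => ∀ i, p ∈ (f i).val)
    (fun p hp h q hq hqp i => rs_down _ (h i) hq hqp)
    (fun p hp h i => rs_reg _ hp fun q hq hqp => by
      obtain ⟨t, htP, h2, htr⟩ := h q hq hqp
      exact ⟨t, h2 i, htr⟩)
  constructor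
  · intro h
    exact ⟨rs_sub _ h, fun i => El.le_iff.1 (iInf_le f i) h⟩
  · intro h
    have h1 : E ≤ ⨅ i, f i := le_iInf fun i => El.le_iff.2 fun z hz => ((hE z).1 hz).2 i
    exact El.le_iff.1 h1 ((hE p).2 h)

theorem rs_top [IsCBA (RO P le)] : (⊤ : El (RO P le)).val = P := by
  have hE : P ∈ RO P le :=
    mem_RO.2 ⟨fun z hz => hz, fun _ _ q hq _ => hq, fun p hp _ => hp⟩
  have h1 : (⟨P, hE⟩ : El (RO P le)) ≤ ⊤ := le_top
  exact subset_antisymm (fun z hz => rs_sub _ hz) (El.le_iff.1 h1)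

theorem rs_ne_bot [IsCBA (RO P le)] (X : El (RO P le)) : X ≠ ⊥ ↔ ∃ p, p ∈ X.val := by
  constructor
  · intro h
    by_contra h1
    push Not at h1
    refine h (El.ext ?_)
    rw [El.bot_val]
    exact (ZFSet.eq_empty _).2 h1
  · rintro ⟨p, hp⟩ h
    rw [h, El.bot_val] at hp
    exact ZFSet.notMem_empty _ hp

theorem rs_inf_ne_bot [IsCBA (RO P le)] (X Y : El (RO P le)) :
    X ⊓ Y ≠ ⊥ ↔ ∃ p, p ∈ X.val ∧ p ∈ Y.val := by
  rw [rs_ne_bot, El.inf_val]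
  simp only [ZFSet.mem_inter]

include hr ht in
theorem rs_compl [IsCBA (RO P le)] (X : El (RO P le)) (p : V) :
    p ∈ (Xᶜ).val ↔ p ∈ P ∧ ∀ q ∈ P, le q p → q ∉ X.val := by
  obtain ⟨E, hE⟩ := rs_mk (P := P) (le := le) (fun p => ∀ q ∈ P, le q p → q ∉ X.val)
    (fun p hp h q hq hqp r hr' hrq => h r hr' (ht r hr' q hq p hp hrq hqp))
    (fun p hp h q hq hqp hqX => by
      obtain ⟨t, htP, h2, htr⟩ := h q hq hqp
      exact h2 t htP (hr t htP) (rs_down _ hqX htP htr))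
  have h1 : IsCompl X E := by
    constructor
    · intro Y h2 h3
      refine El.le_iff.2 fun z hz => ?_
      obtain ⟨h4, h5⟩ := (hE z).1 (El.le_iff.1 h3 hz)
      exact (h5 z h4 (hr z h4) (El.le_iff.1 h2 hz)).elim
    · intro Y h2 h3
      refine El.le_iff.2 fun z hz => ?_
      have hzP : z ∈ P := rs_sub _ hz
      refine rs_reg _ hzP fun q hq hqz => ?_
      by_cases h6 : ∃ r ∈ P, le r q ∧ r ∈ X.val
      · obtain ⟨r, -, hrq, hrX⟩ := h6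
        exact ⟨r, El.le_iff.1 h2 hrX, hrq⟩
      · push Not at h6
        exact ⟨q, El.le_iff.1 h3 ((hE q).2 ⟨hq, h6⟩), hr q hq⟩
  rw [h1.compl_eq]
  exact hE p

include hr ht in
theorem rs_cl_mem (p : V) : cl P le p ∈ RO P le := by
  unfold cl
  refine mem_RO.2 ⟨fun z hz => (ZFSet.mem_sep.1 hz).1, ?_, ?_⟩
  · intro a ha q hq hqa
    obtain ⟨h1, h2⟩ := ZFSet.mem_sep.1 ha
    exact ZFSet.mem_sep.2 ⟨hq, fun r hr' hrq => h2 r hr' (ht r hr' q hq a h1 hrq hqa)⟩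
  · intro a ha h
    refine ZFSet.mem_sep.2 ⟨ha, fun r hr' hra => ?_⟩
    obtain ⟨t, ht', htr⟩ := h r hr' hra
    obtain ⟨h1, h2⟩ := ZFSet.mem_sep.1 ht'
    obtain ⟨s, hs, hst, hsp⟩ := h2 t h1 (hr t h1)
    exact ⟨s, hs, ht s hs t h1 r hr' hst htr, hsp⟩

include hr in
theorem rs_mem_cl {p : V} (hp : p ∈ P) : p ∈ cl P le p :=
  ZFSet.mem_sep.2 ⟨hp, fun r hr' hrp => ⟨r, hr', hr r hr', hrp⟩⟩

include hr in
theorem rs_cl_sub {p : V} (hp : p ∈ P) (X : El (RO P le)) : cl P le p ⊆ X.val ↔ p ∈ X.val := by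
  constructor
  · intro h
    exact h (rs_mem_cl hr hp)
  · intro h z hz
    obtain ⟨h1, h2⟩ := ZFSet.mem_sep.1 hz
    refine rs_reg _ h1 fun q hq hqz => ?_
    obtain ⟨s, hs, hsq, hsp⟩ := h2 q hq hqz
    exact ⟨s, rs_down _ h hs hsp, hsq⟩

include hr ht in
theorem rs_eq_iSup [IsCBA (RO P le)] (X : El (RO P le)) :
    X = ⨆ p : El X.val, mkEl (RO P le) (cl P le p.val) := by
  apply le_antisymm
  · rw [rs_iSup hr ht]
    intro p hp
    have hpP : p ∈ P := rs_sub _ hp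
    refine ⟨p, hpP, hr p hpP, ⟨p, hp⟩, ?_⟩
    rw [rs_mkEl (rs_cl_mem hr ht p)]
    exact rs_mem_cl hr hpP
  · refine iSup_le fun p => ?_
    have hpP : p.val ∈ P := rs_sub _ p.mem
    rw [rs_mkEl (rs_cl_mem hr ht p.val), El.le_iff]
    exact (rs_cl_sub hr hpP X).2 p.mem

end

theorem pf_RS : T_RS := by
  intro P le hr ht _
  refine ⟨fun ι f X => rs_iSup hr ht f X, fun ι f p => rs_iInf f p,
    fun X p => rs_compl hr ht X p, rs_top, rs_ne_bot, rs_inf_ne_bot, ?_,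
    fun X => rs_eq_iSup hr ht X⟩
  intro p hp
  have h := rs_cl_mem hr ht p
  exact ⟨h, rs_mem_cl hr hp, fun q hq hqp => (mem_RO.1 h).2.1 p (rs_mem_cl hr hp) q hq hqp,
    fun X => rs_cl_sub hr hp X⟩

end SF
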