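import Pool.Agent.H45.SF.GT
import Pool.Agent.H87.SF.RS

/-!
# MP_3b3fc8_lc, module PR: existence of products
-/

set_option autoImplicit false

open Ordinal Cardinal Order Set
open scoped ZFSet

namespace SF

/-- the regular open algebra of a set of small rank has small rank -/
theorem pr_rank {P : V} {le : V → V → Prop} {ρ : Ordinal.{0}} {n : ℕ} (h : P ⊆ V_ (ρ + n)) :
    RO P le ∈ V_ (ρ + ω) := by
  have h1 : P.rank ≤ ρ + n := ZFSet.subset_vonNeumann.1 h
  have h2 : RO P le ⊆ ZFSet.powerset P := fun z hz => (ZFSet.mem_sep.1 hz).1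
  have h3 : (RO P le).rank ≤ ρ + (n + 1 : ℕ) := by
    refine (ZFSet.rank_mono h2).trans ?_
    rw [ZFSet.rank_powerset, Nat.cast_add, Nat.cast_one, ← add_assoc, ← Order.succ_eq_add_one]
    exact Order.succ_le_succ h1
  rw [ZFSet.mem_vonNeumann]
  refine h3.trans_lt ?_
  exact (add_lt_add_iff_left ρ).2 (Ordinal.natCast_lt_omega0 _)

theorem pr_pair_rank {x y : V} {ρ : Ordinal.{0}} (hx : x ∈ V_ ρ) (hy : y ∈ V_ ρ) :
    ZFSet.pair x y ∈ V_ (ρ + 2) := by
  rw [ZFSet.mem_vonNeumann] at *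
  unfold ZFSet.pair
  rw [ZFSet.rank_pair, ZFSet.rank_singleton, ZFSet.rank_pair]
  have h2 : ρ + 2 = succ (succ ρ) := by
    rw [← one_add_one_eq_two, ← add_assoc, ← Order.succ_eq_add_one, ← Order.succ_eq_add_one]
  rw [h2]
  have hx' : succ x.rank ≤ ρ := Order.succ_le_of_lt hx
  have hy' : succ y.rank ≤ ρ := Order.succ_le_of_lt hy
  rw [max_lt_iff]
  refine ⟨?_, ?_⟩
  · exact Order.succ_lt_succ (Order.lt_succ_of_le hx')
  · exact Order.succ_lt_succ (Order.lt_succ_of_le (max_le hx' hy'))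

section

variable {I : Type 1} (A : I → BA) (e : ∀ i, El (A i).B) (c : I → V) (ρ : Ordinal.{0})

/-- the conditions of the product -/
noncomputable def prP : V := (V_ (ρ + 2)).sep fun z =>
  ∃ (i : I) (x : El (A i).B), x ≠ ⊥ ∧ x ≤ e i ∧ z = ZFSet.pair (c i) x.val

/-- the order of the product -/
def prle (p q : V) : Prop := ∃ a x y, p = ZFSet.pair a x ∧ q = ZFSet.pair a y ∧ x ⊆ y

variable {c ρ} {A e}

theorem prle_iff {a b x y : V} : prle (ZFSet.pair a x) (ZFSet.pair b y) ↔ a = b ∧ x ⊆ y := by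
  constructor
  · rintro ⟨a', x', y', h1, h2, h3⟩
    obtain ⟨rfl, rfl⟩ := ZFSet.pair_inj.1 h1
    obtain ⟨rfl, rfl⟩ := ZFSet.pair_inj.1 h2
    exact ⟨rfl, h3⟩
  · rintro ⟨rfl, h⟩
    exact ⟨a, x, y, rfl, rfl, h⟩

theorem mem_prP_ex {p : V} (h : p ∈ prP A e c ρ) :
    ∃ (i : I) (x : El (A i).B), x ≠ ⊥ ∧ x ≤ e i ∧ p = ZFSet.pair (c i) x.val :=
  (ZFSet.mem_sep.1 h).2

variable (hc : Function.Injective c) (hcr : ∀ i, c i ∈ V_ ρ) (hA : ∀ i, (A i).B ∈ V_ ρ)

include hcr hA in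
theorem mem_prP_of {i : I} {x : El (A i).B} (h1 : x ≠ ⊥) (h2 : x ≤ e i) :
    ZFSet.pair (c i) x.val ∈ prP A e c ρ :=
  ZFSet.mem_sep.2 ⟨pr_pair_rank (hcr i) ((ZFSet.isTransitive_vonNeumann ρ).mem_trans x.mem (hA i)),
    i, x, h1, h2, rfl⟩

include hc in
theorem pr_inj {i j : I} {x : El (A i).B} {y : V}
    (h : ZFSet.pair (c j) y = ZFSet.pair (c i) x.val) :
    j = i ∧ y = x.val := by
  obtain ⟨h1, h2⟩ := ZFSet.pair_inj.1 h
  exact ⟨hc h1, h2⟩

theorem prle_refl (p : V) (hp : p ∈ prP A e c ρ) : prle p p := by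
  obtain ⟨i, x, -, -, rfl⟩ := mem_prP_ex hp
  exact prle_iff.2 ⟨rfl, fun _ h => h⟩

theorem prle_trans {p q r : V} (h : prle p q) (h' : prle q r) : prle p r := by
  obtain ⟨a, x, y, rfl, rfl, h3⟩ := h
  obtain ⟨a', x', y', h4, rfl, h5⟩ := h'
  obtain ⟨rfl, rfl⟩ := ZFSet.pair_inj.1 h4
  exact prle_iff.2 ⟨rfl, fun _ h => h5 (h3 h)⟩

variable (A e c ρ) in
/-- the algebra of the product -/
noncomputable def prB : V := RO (prP A e c ρ) prle

instance prB_cba : IsCBA (prB A e c ρ) :=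
  isCBA_RO prle_refl fun _ _ _ _ _ _ h h' => prle_trans h h'

instance prRO_cba : IsCBA (RO (prP A e c ρ) prle) := prB_cba

include hc in
theorem pr_inj' {i j : I} {x : El (A i).B} {y : El (A j).B}
    (h : ZFSet.pair (c j) y.val = ZFSet.pair (c i) x.val) (z : ∀ i, El (A i).B) :
    y ≤ z j ↔ x ≤ z i := by
  obtain ⟨h1, h2⟩ := pr_inj (A := A) hc h
  subst h1
  rw [El.ext h2]

include hc in
theorem pr_mem_iff {i : I} {x : El (A i).B} (h : ZFSet.pair (c i) x.val ∈ prP A e c ρ) :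
    x ≠ ⊥ ∧ x ≤ e i := by
  obtain ⟨j, y, h1, h2, h3⟩ := mem_prP_ex h
  obtain ⟨h4, h5⟩ := pr_inj (A := A) hc h3
  subst h4
  rw [El.ext h5]
  exact ⟨h1, h2⟩

include hc hcr hA in
theorem prU_ex (z : ∀ i, El (A i).B) : ∃ E : El (RO (prP A e c ρ) prle), ∀ p, p ∈ E.val ↔
    p ∈ prP A e c ρ ∧ ∃ (i : I) (x : El (A i).B), p = ZFSet.pair (c i) x.val ∧ x ≤ z i := by
  refine rs_mk _ ?_ ?_
  · rintro p hp ⟨i, x, rfl, hx⟩ q hq hqp
    obtain ⟨j, y, h1, h2, rfl⟩ := mem_prP_ex hq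
    obtain ⟨h3, h4⟩ := prle_iff.1 hqp
    have h5 := hc h3
    subst h5
    exact ⟨j, y, rfl, (El.le_iff.2 h4).trans hx⟩
  · intro p hp h
    obtain ⟨i, x, h1, h2, rfl⟩ := mem_prP_ex hp
    refine ⟨i, x, rfl, ?_⟩
    by_contra h3
    have h4 : x \ z i ≠ ⊥ := fun h => h3 (sdiff_eq_bot_iff.1 h)
    obtain ⟨r, hr, ⟨j, y, rfl, hy⟩, hry⟩ := h _
      (mem_prP_of hcr hA h4 (sdiff_le.trans h2)) (prle_iff.2 ⟨rfl, El.le_iff.1 sdiff_le⟩)
    obtain ⟨h5, h6⟩ := prle_iff.1 hry
    have h7 := hc h5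
    subst h7
    have h8 : y ≤ x \ z j := El.le_iff.2 h6
    have h9 : y ≤ ⊥ := by
      have : y ≤ z j ⊓ (x \ z j) := le_inf hy h8
      rwa [inf_sdiff_self_right] at this
    exact (pr_mem_iff hc hr).1 (le_bot_iff.1 h9)

/-- the element of the product given by a family -/
noncomputable def prU (hc : Function.Injective c) (hcr : ∀ i, c i ∈ V_ ρ)
    (hA : ∀ i, (A i).B ∈ V_ ρ) (z : ∀ i, El (A i).B) : El (prB A e c ρ) :=
  (prU_ex hc hcr hA z).choose

theorem mem_prU {z : ∀ i, El (A i).B} {p : V} : p ∈ (prU (e := e) hc hcr hA z).val ↔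
    p ∈ prP A e c ρ ∧ ∃ (i : I) (x : El (A i).B), p = ZFSet.pair (c i) x.val ∧ x ≤ z i :=
  (prU_ex hc hcr hA z).choose_spec p

theorem mem_prU' {z : ∀ i, El (A i).B} {i : I} {x : El (A i).B} :
    ZFSet.pair (c i) x.val ∈ (prU (e := e) hc hcr hA z).val ↔ x ≠ ⊥ ∧ x ≤ e i ∧ x ≤ z i := by
  rw [mem_prU]
  constructor
  · rintro ⟨h1, j, y, h2, h3⟩
    obtain ⟨h4, h5⟩ := pr_mem_iff hc h1
    exact ⟨h4, h5, (pr_inj' hc h2 z).2 h3⟩
  · rintro ⟨h1, h2, h3⟩
    exact ⟨mem_prP_of hcr hA h1 h2, i, x, rfl, h3⟩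

/-- comparison of elements of the product -/
theorem prU_le {z : ∀ i, El (A i).B} {Y : El (prB A e c ρ)} :
    prU hc hcr hA z ≤ Y ↔ ∀ (i : I) (x : El (A i).B), x ≠ ⊥ → x ≤ e i → x ≤ z i →
      ZFSet.pair (c i) x.val ∈ Y.val := by
  rw [El.le_iff]
  constructor
  · intro h i x h1 h2 h3
    exact h ((mem_prU' hc hcr hA).2 ⟨h1, h2, h3⟩)
  · intro h p hp
    obtain ⟨h1, i, x, rfl, h2⟩ := (mem_prU hc hcr hA).1 hp
    obtain ⟨h3, h4⟩ := pr_mem_iff hc h1
    exact h i x h3 h4 h2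

theorem le_prU {z : ∀ i, El (A i).B} {Y : El (prB A e c ρ)} :
    Y ≤ prU hc hcr hA z ↔ ∀ (i : I) (x : El (A i).B), ZFSet.pair (c i) x.val ∈ Y.val →
      x ≤ z i := by
  rw [El.le_iff]
  constructor
  · intro h i x h1
    exact ((mem_prU' hc hcr hA).1 (h h1)).2.2
  · intro h p hp
    have h0 : p ∈ prP A e c ρ := rs_sub _ hp
    obtain ⟨i, x, h1, h2, rfl⟩ := mem_prP_ex h0
    exact (mem_prU' hc hcr hA).2 ⟨h1, h2, h i x hp⟩

theorem prU_mono {z z' : ∀ i, El (A i).B} (h : ∀ i, z i ⊓ e i ≤ z' i) :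
    prU (e := e) hc hcr hA z ≤ prU hc hcr hA z' := by
  rw [prU_le]
  intro i x h1 h2 h3
  exact (mem_prU' hc hcr hA).2 ⟨h1, h2, (le_inf h3 h2).trans (h i)⟩

theorem prU_inf (z z' : ∀ i, El (A i).B) :
    prU (e := e) hc hcr hA (fun i => z i ⊓ z' i) = prU hc hcr hA z ⊓ prU hc hcr hA z' := by
  apply le_antisymm
  · refine le_inf (prU_mono _ _ _ fun i => inf_le_left.trans inf_le_left)
      (prU_mono _ _ _ fun i => inf_le_left.trans inf_le_right)
  · rw [le_prU]
    intro i x h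
    rw [El.inf_val, ZFSet.mem_inter, mem_prU', mem_prU'] at h
    exact le_inf h.1.2.2 h.2.2.2

theorem prU_top : prU (e := e) hc hcr hA (fun _ => ⊤) = ⊤ := by
  rw [eq_top_iff, le_prU]
  exact fun i x _ => le_top

theorem prU_bot {z : ∀ i, El (A i).B} (h : ∀ i, z i = ⊥) :
    prU (e := e) hc hcr hA z = ⊥ := by
  rw [eq_bot_iff, prU_le]
  intro i x h1 _ h3
  rw [h i] at h3
  exact (h1 (le_bot_iff.1 h3)).elim

theorem prU_iSup {κ : Type*} (z : κ → ∀ i, El (A i).B) :
    prU (e := e) hc hcr hA (fun i => ⨆ k, z k i) = ⨆ k, prU hc hcr hA (z k) := by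
  apply le_antisymm
  · refine (rs_iSup prle_refl (fun _ _ _ _ _ _ h h' => prle_trans h h') _ _).2 ?_
    intro p hp
    obtain ⟨h1, i, x, rfl, h2⟩ := (mem_prU hc hcr hA).1 hp
    obtain ⟨h3, h4⟩ := pr_mem_iff hc h1
    obtain ⟨k, hk⟩ : ∃ k, x ⊓ z k i ≠ ⊥ := by
      by_contra h5
      push Not at h5
      apply h3
      have h6 : x ⊓ ⨆ k, z k i = ⊥ := by
        rw [inf_iSup_eq]
        simp [h5]
      rwa [inf_eq_left.2 h2] at h6
    refine ⟨ZFSet.pair (c i) (x ⊓ z k i).val, mem_prP_of hcr hA hk (inf_le_left.trans h4),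
      prle_iff.2 ⟨rfl, El.le_iff.1 inf_le_left⟩, k, ?_⟩
    exact (mem_prU' hc hcr hA).2 ⟨hk, inf_le_left.trans h4, inf_le_right⟩
  · refine iSup_le fun k => prU_mono _ _ _ fun i => inf_le_left.trans ?_
    exact le_iSup (fun k => z k i) k

/-- the family with value `x` at `i` and `⊥` elsewhere -/
noncomputable def sgl (i : I) (x : El (A i).B) (j : I) : El (A j).B :=
  open Classical in ⟨if j = i then x.val else ∅, by
    split_ifs with h
    · subst h; exact x.mem
    · exact IsCBA.bot⟩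

theorem sgl_self (i : I) (x : El (A i).B) : sgl i x i = x := by
  classical
  apply El.ext
  unfold sgl
  exact if_pos rfl

theorem sgl_ne {i j : I} (h : j ≠ i) (x : El (A i).B) : sgl i x j = ⊥ := by
  classical
  apply El.ext
  rw [El.bot_val]
  unfold sgl
  exact if_neg h

theorem sgl_iSup {κ : Type*} (i : I) (x : κ → El (A i).B) (j : I) :
    sgl i (⨆ k, x k) j = ⨆ k, sgl i (x k) j := by
  by_cases h : j = i
  · subst h
    simp only [sgl_self]
  · simp only [sgl_ne h, iSup_bot]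

theorem sgl_inf (i : I) (x y : El (A i).B) (j : I) :
    sgl i (x ⊓ y) j = sgl i x j ⊓ sgl i y j := by
  by_cases h : j = i
  · subst h
    simp only [sgl_self]
  · simp only [sgl_ne h, inf_idem]

variable (e) in
/-- the base morphism of the product -/
noncomputable def prg : Mor B0 (prB A e c ρ) where
  f x := prU hc hcr hA fun j => (A j).g x
  inf x y := by
    rw [← prU_inf]
    congr 1
    funext j
    exact (A j).g.inf x y
  sup S := by
    rw [sSup_image', ← prU_iSup]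
    congr 1
    funext j
    rw [(A j).g.sup, sSup_image']

variable (e) in
/-- the product -/
noncomputable def prZ : BA where
  B := prB A e c ρ
  g := prg e hc hcr hA
  unit := by
    show prU hc hcr hA (fun j => (A j).g ⊤) = ⊤
    rw [← prU_top hc hcr hA]
    congr 1
    funext j
    exact (A j).unit

variable (e) in
/-- the embeddings as morphisms -/
noncomputable def pri0 (i : I) : Mor (A i).B (prB A e c ρ) where
  f x := prU hc hcr hA (sgl i x)
  inf x y := by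
    rw [← prU_inf]
    congr 1
    funext j
    exact sgl_inf i x y j
  sup S := by
    rw [sSup_image', ← prU_iSup, sSup_eq_iSup']
    congr 1
    funext j
    exact sgl_iSup i _ j

theorem pri_base (i : I) (x : El B0) : prU hc hcr hA (sgl i ((A i).g x)) =
      prU (e := e) hc hcr hA (fun j => (A j).g x) ⊓ prU hc hcr hA (sgl i ⊤) := by
  rw [← prU_inf]
  congr 1
  funext j
  by_cases h : j = i
  · subst h
    rw [sgl_self, sgl_self, inf_top_eq]
  · rw [sgl_ne h, sgl_ne h, inf_bot_eq]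

variable (e) in
/-- the embeddings -/
noncomputable def pri (i : I) : BMor (A i) (prZ e hc hcr hA) where
  toMor := pri0 e hc hcr hA i
  base x := pri_base hc hcr hA i x

theorem pri_f (i : I) (x : El (A i).B) : pri e hc hcr hA i x = prU hc hcr hA (sgl i x) := rfl

theorem pr_Prd : Prd A e (prZ e hc hcr hA) (pri e hc hcr hA) where
  res i x := by
    apply le_antisymm
    · refine prU_mono hc hcr hA fun j => ?_
      by_cases h : j = i
      · subst h
        rw [sgl_self, sgl_self]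
      · rw [sgl_ne h, bot_inf_eq]
        exact bot_le
    · refine prU_mono hc hcr hA fun j => ?_
      rw [sgl_inf]
      exact inf_le_left.trans inf_le_left
  inj i x h := by
    by_contra h1
    have h2 : ZFSet.pair (c i) (x ⊓ e i).val ∈ (prU (e := e) hc hcr hA (sgl i x)).val :=
      (mem_prU' hc hcr hA).2 ⟨h1, inf_le_right, by rw [sgl_self]; exact inf_le_left⟩
    have h3 : prU (e := e) hc hcr hA (sgl i x) = ⊥ := h
    rw [h3, El.bot_val] at h2
    exact ZFSet.notMem_empty _ h2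
  onto i z hz := by
    have hz' : z ≤ prU (e := e) hc hcr hA (sgl i ⊤) := hz
    refine ⟨sSup {y | ZFSet.pair (c i) y.val ∈ z.val}, ?_, ?_⟩
    · refine sSup_le fun y hy => ?_
      exact (pr_mem_iff hc (rs_sub z hy)).2
    · apply le_antisymm
      · have h1 := (pri e hc hcr hA i).sup {y | ZFSet.pair (c i) y.val ∈ z.val}
        refine h1.le.trans (sSup_le ?_)
        rintro _ ⟨y, hy, rfl⟩
        show prU hc hcr hA (sgl i y) ≤ z
        rw [prU_le]
        intro j x h2 h3 h4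
        by_cases h : j = i
        · subst h
          rw [sgl_self] at h4
          exact rs_down z hy (mem_prP_of hcr hA h2 h3) (prle_iff.2 ⟨rfl, El.le_iff.1 h4⟩)
        · rw [sgl_ne h] at h4
          exact (h2 (le_bot_iff.1 h4)).elim
      · show z ≤ prU hc hcr hA (sgl i _)
        refine (le_prU hc hcr hA).2 ?_
        intro j x hx
        have h2 := (le_prU hc hcr hA).1 hz' j x hx
        by_cases h : j = i
        · subst h
          rw [sgl_self]
          exact le_sSup hx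
        · rw [sgl_ne h] at h2 ⊢
          exact h2
  dis i j hij := by
    show prU hc hcr hA (sgl i ⊤) ⊓ prU hc hcr hA (sgl j ⊤) = ⊥
    rw [← prU_inf]
    refine prU_bot hc hcr hA fun k => ?_
    by_cases h : k = i
    · rw [sgl_ne (i := j) (by rw [h]; exact hij), inf_bot_eq]
    · rw [sgl_ne h, bot_inf_eq]
  top := by
    show ⨆ i, prU hc hcr hA (sgl i ⊤) = ⊤
    rw [← prU_iSup, ← prU_top hc hcr hA]
    congr 1
    funext j
    refine le_antisymm le_top ?_
    have h := le_iSup (fun i => sgl (A := A) i ⊤ j) j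
    simp only [sgl_self] at h
    exact h

end

theorem pf_PR : T_PR := by
  intro I A e c ρ hc hcr hA
  refine ⟨prZ e hc hcr hA, pri e hc hcr hA, pr_Prd hc hcr hA, ?_⟩
  refine pr_rank (n := 2) ?_
  intro z hz
  exact (ZFSet.mem_sep.1 hz).1

end SF
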