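import Pool.Agent.H45.SF.GT
import Pool.Agent.H87.SF.PR

/-!
# MP_3b3fc8_lc, module LI: existence of limits of sequences of algebras
-/

set_option autoImplicit false

open Ordinal Cardinal Order Set
open scoped ZFSet

namespace SF

theorem li_mor_top {B C : V} [IsCBA B] [IsCBA C] (h : Mor B C) (x : El B) : h x ≤ h ⊤ := by
  have h1 := h.inf x ⊤
  rw [inf_top_eq] at h1
  exact inf_eq_left.1 h1.symm

/-- restriction of a thread -/
theorem li_restrict (hMP : T_MP) : ∀ (n : ℕ) (A : ℕ → BA) (f : ∀ n, BMor (A n) (A (n + 1))),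
    (∀ n, f n ⊤ = ⊤) → ∀ t : (∀ n, El (A n).B), Thr f t → ∀ y : El (A n).B, y ≠ ⊥ → y ≤ t n →
      ∃ s : (∀ n, El (A n).B), Thr f s ∧ (∀ m, s m ≤ t m) ∧ s n = y := by
  intro n
  induction n with
  | zero =>
    intro A f hf t ht y hy hyt
    let s : ∀ n, El (A n).B := fun n =>
      Nat.rec (motive := fun n => El (A n).B) y (fun n x => t (n + 1) ⊓ f n x) n
    have hs : ∀ n, s (n + 1) = t (n + 1) ⊓ f n (s n) := fun n => rfl
    have hle : ∀ m, s m ≤ t m := by
      intro m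
      cases m with
      | zero => exact hyt
      | succ m => rw [hs]; exact inf_le_left
    have htop : ∀ n (c : El (A (n + 1)).B), c ≤ f n ⊤ := fun n c => by rw [hf n]; exact le_top
    have hproj : ∀ n, (f n).proj (s (n + 1)) = s n := by
      intro n
      obtain ⟨-, -, -, -, h5, -⟩ := hMP _ _ (f n).toMor
      rw [hs]
      have h6 := h5 (t (n + 1)) (s n) (htop n _)
      rw [h6, ht.2 n]
      exact inf_eq_right.2 (hle n)
    refine ⟨s, ⟨?_, hproj⟩, hle, rfl⟩
    intro n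
    induction n with
    | zero => exact hy
    | succ n ih =>
      intro h
      obtain ⟨-, -, -, h4, -⟩ := hMP _ _ (f n).toMor
      have h7 := (h4 (s (n + 1)) (htop n _)).2 h
      rw [hproj n] at h7
      exact ih h7
  | succ n ih =>
    intro A f hf t ht y hy hyt
    obtain ⟨s', ⟨h1, h2⟩, h3, h4⟩ := ih (fun n => A (n + 1)) (fun n => f (n + 1))
      (fun n => hf (n + 1)) (fun n => t (n + 1)) ⟨fun n => ht.1 (n + 1), fun n => ht.2 (n + 1)⟩
      y hy hyt
    let s : ∀ n, El (A n).B := fun n =>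
      Nat.rec (motive := fun n => El (A n).B) ((f 0).proj (s' 0)) (fun n _ => s' n) n
    have hs0 : s 0 = (f 0).proj (s' 0) := rfl
    have hs : ∀ n, s (n + 1) = s' n := fun n => rfl
    obtain ⟨-, -, m3, m4, -⟩ := hMP _ _ (f 0).toMor
    have htop : ∀ (c : El (A 1).B), c ≤ f 0 ⊤ := fun c => by rw [hf 0]; exact le_top
    refine ⟨s, ⟨?_, ?_⟩, ?_, ?_⟩
    · intro m
      cases m with
      | zero =>
        rw [hs0]
        intro h
        exact h1 0 ((m4 (s' 0) (htop _)).1 h)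
      | succ m => rw [hs]; exact h1 m
    · intro m
      cases m with
      | zero => rfl
      | succ m => exact h2 m
    · intro m
      cases m with
      | zero =>
        rw [hs0, ← ht.2 0]
        exact m3 _ _ (h3 0) (htop _)
      | succ m => exact h3 m
    · exact h4

section

variable (A : ℕ → BA) (f : ∀ n, BMor (A n) (A (n + 1)))

/-- the code of a sequence -/
noncomputable def lic (t : ∀ n, El (A n).B) : V :=
  ZFSet.range fun n : ℕ => ZFSet.pair (n : Ordinal.{0}).toZFSet (t n).val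

variable {A} in
theorem lic_inj {t t' : ∀ n, El (A n).B} (h : lic A t = lic A t') : t = t' := by
  funext n
  have h1 : ZFSet.pair (n : Ordinal.{0}).toZFSet (t n).val ∈ lic A t' := by
    rw [← h]
    exact ZFSet.mem_range.2 ⟨n, rfl⟩
  obtain ⟨m, hm⟩ := ZFSet.mem_range.1 h1
  obtain ⟨h2, h3⟩ := ZFSet.pair_inj.1 hm
  have h4 : m = n := by
    have := Ordinal.toZFSet_injective h2
    exact_mod_cast this
  subst h4
  exact El.ext h3.symm

/-- the set of the codes of threads -/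
noncomputable def liT : V :=
  ZFSet.range fun t : {t : ∀ n, El (A n).B // Thr f t} => lic A t.1

/-- the order on codes -/
def lile (p q : V) : Prop := ∃ t t' : ∀ n, El (A n).B, p = lic A t ∧ q = lic A t' ∧ ∀ n, t n ≤ t' n

variable {A f}

theorem lile_iff {t t' : ∀ n, El (A n).B} : lile A (lic A t) (lic A t') ↔ ∀ n, t n ≤ t' n := by
  constructor
  · rintro ⟨s, s', h1, h2, h3⟩
    rw [lic_inj h1, lic_inj h2]
    exact h3
  · intro h
    exact ⟨t, t', rfl, rfl, h⟩

theorem mem_liT {p : V} : p ∈ liT A f ↔ ∃ t, Thr f t ∧ p = lic A t := by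
  unfold liT
  rw [ZFSet.mem_range]
  constructor
  · rintro ⟨⟨t, ht⟩, rfl⟩
    exact ⟨t, ht, rfl⟩
  · rintro ⟨t, ht, rfl⟩
    exact ⟨⟨t, ht⟩, rfl⟩

theorem lic_mem {t : ∀ n, El (A n).B} : lic A t ∈ liT A f ↔ Thr f t := by
  rw [mem_liT]
  constructor
  · rintro ⟨s, hs, h⟩
    rwa [lic_inj h]
  · intro h
    exact ⟨t, h, rfl⟩

theorem lile_refl (p : V) (hp : p ∈ liT A f) : lile A p p := by
  obtain ⟨t, -, rfl⟩ := mem_liT.1 hp
  exact lile_iff.2 fun _ => le_rfl

theorem lile_trans {p q r : V} (h : lile A p q) (h' : lile A q r) : lile A p r := by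
  obtain ⟨t, t', rfl, rfl, h3⟩ := h
  obtain ⟨s, s', h4, rfl, h5⟩ := h'
  obtain rfl := lic_inj h4
  exact lile_iff.2 fun n => (h3 n).trans (h5 n)

variable (A f) in
/-- the algebra of the limit -/
noncomputable def liB : V := RO (liT A f) (lile A)

instance liB_cba : IsCBA (liB A f) :=
  isCBA_RO lile_refl fun _ _ _ _ _ _ h h' => lile_trans h h'

instance liRO_cba : IsCBA (RO (liT A f) (lile A)) := liB_cba

variable (hMP : T_MP) (hf : ∀ n, f n ⊤ = ⊤)

include hMP hf in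
theorem lik_ex (n : ℕ) (x : El (A n).B) : ∃ E : El (RO (liT A f) (lile A)), ∀ p, p ∈ E.val ↔
    p ∈ liT A f ∧ ∃ t, p = lic A t ∧ t n ≤ x := by
  refine rs_mk _ ?_ ?_
  · rintro p hp ⟨t, rfl, hx⟩ q hq hqp
    obtain ⟨s, hs, rfl⟩ := mem_liT.1 hq
    exact ⟨s, rfl, (lile_iff.1 hqp n).trans hx⟩
  · intro p hp h
    obtain ⟨t, ht, rfl⟩ := mem_liT.1 hp
    refine ⟨t, rfl, ?_⟩
    by_contra h3
    have h4 : t n \ x ≠ ⊥ := fun h => h3 (sdiff_eq_bot_iff.1 h)
    obtain ⟨s, hs, hst, hsn⟩ := li_restrict hMP n A f hf t ht _ h4 sdiff_le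
    obtain ⟨r, hr, ⟨u, rfl, hu⟩, hrs⟩ := h _ (lic_mem.2 hs) (lile_iff.2 hst)
    have h5 := lile_iff.1 hrs n
    rw [hsn] at h5
    have h9 : u n ≤ ⊥ := by
      have : u n ≤ x ⊓ (t n \ x) := le_inf hu h5
      rwa [inf_sdiff_self_right] at this
    exact (lic_mem.1 hr).1 n (le_bot_iff.1 h9)

/-- the embeddings into the limit -/
noncomputable def lik (hMP : T_MP) (hf : ∀ n, f n ⊤ = ⊤) (n : ℕ) (x : El (A n).B) :
    El (liB A f) := (lik_ex hMP hf n x).choose

theorem mem_lik' {n : ℕ} {x : El (A n).B} {p : V} : p ∈ (lik hMP hf n x).val ↔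
    p ∈ liT A f ∧ ∃ t, p = lic A t ∧ t n ≤ x := (lik_ex hMP hf n x).choose_spec p

theorem mem_lik {n : ℕ} {x : El (A n).B} {t : ∀ n, El (A n).B} :
    lic A t ∈ (lik hMP hf n x).val ↔ Thr f t ∧ t n ≤ x := by
  rw [mem_lik', lic_mem]
  constructor
  · rintro ⟨h1, s, h2, h3⟩
    rw [lic_inj h2]
    exact ⟨by rwa [← lic_inj h2], h3⟩
  · rintro ⟨h1, h2⟩
    exact ⟨h1, t, rfl, h2⟩

/-- comparison of elements of the limit -/
theorem li_le {X Y : El (liB A f)} : X ≤ Y ↔ ∀ t, Thr f t → lic A t ∈ X.val → lic A t ∈ Y.val := by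
  rw [El.le_iff]
  constructor
  · intro h t _ h2
    exact h h2
  · intro h p hp
    obtain ⟨t, ht, rfl⟩ := mem_liT.1 (rs_sub X hp)
    exact h t ht hp

theorem lik_mono {n : ℕ} {x y : El (A n).B} (h : x ≤ y) : lik hMP hf n x ≤ lik hMP hf n y := by
  rw [li_le]
  intro t ht h1
  exact (mem_lik hMP hf).2 ⟨ht, ((mem_lik hMP hf).1 h1).2.trans h⟩

theorem lik_top (n : ℕ) : lik hMP hf n ⊤ = ⊤ := by
  rw [eq_top_iff, li_le]
  intro t ht _
  exact (mem_lik hMP hf).2 ⟨ht, le_top⟩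

/-- the embeddings as morphisms -/
noncomputable def likm (n : ℕ) : Mor (A n).B (liB A f) where
  f x := lik hMP hf n x
  inf x y := by
    apply le_antisymm
    · exact le_inf (lik_mono _ _ inf_le_left) (lik_mono _ _ inf_le_right)
    · rw [li_le]
      intro t ht h
      rw [El.inf_val, ZFSet.mem_inter, mem_lik, mem_lik] at h
      exact (mem_lik hMP hf).2 ⟨ht, le_inf h.1.2 h.2.2⟩
  sup S := by
    rw [sSup_image']
    apply le_antisymm
    · refine (rs_iSup lile_refl (fun _ _ _ _ _ _ h h' => lile_trans h h') _ _).2 ?_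
      intro p hp
      obtain ⟨h1, t, rfl, h2⟩ := (mem_lik' hMP hf).1 hp
      have ht := lic_mem.1 h1
      obtain ⟨s, hs⟩ : ∃ s : S, t n ⊓ s.1 ≠ ⊥ := by
        by_contra h5
        push Not at h5
        apply ht.1 n
        have h6 : t n ⊓ sSup S = ⊥ := by
          rw [sSup_eq_iSup', inf_iSup_eq]
          simp only [h5, iSup_bot]
        rwa [inf_eq_left.2 h2] at h6
      obtain ⟨u, hu, hut, hun⟩ := li_restrict hMP n A f hf t ht _ hs inf_le_left
      refine ⟨lic A u, lic_mem.2 hu, lile_iff.2 hut, s, ?_⟩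
      exact (mem_lik hMP hf).2 ⟨hu, by rw [hun]; exact inf_le_right⟩
    · exact iSup_le fun s => lik_mono _ _ (le_sSup s.2)

include hMP hf in
theorem lik_comm (n : ℕ) (x : El (A n).B) : lik hMP hf (n + 1) (f n x) = lik hMP hf n x := by
  obtain ⟨h1, -⟩ := hMP _ _ (f n).toMor
  have h2 : ∀ t, Thr f t → (t (n + 1) ≤ f n x ↔ t n ≤ x) := by
    intro t ht
    have h3 := h1 (t (n + 1)) x (by rw [hf n]; exact le_top)
    rw [← h3, ht.2 n]
  apply le_antisymm
  · rw [li_le]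
    intro t ht h
    exact (mem_lik hMP hf).2 ⟨ht, (h2 t ht).1 ((mem_lik hMP hf).1 h).2⟩
  · rw [li_le]
    intro t ht h
    exact (mem_lik hMP hf).2 ⟨ht, (h2 t ht).2 ((mem_lik hMP hf).1 h).2⟩

/-- the limit -/
noncomputable def liZ : BA where
  B := liB A f
  g := (A 0).g.comp (likm hMP hf 0)
  unit := by
    show lik hMP hf 0 ((A 0).g ⊤) = ⊤
    rw [(A 0).unit]
    exact lik_top hMP hf 0

theorem lik_base (n : ℕ) (x : El B0) :
    lik hMP hf n ((A n).g x) = lik hMP hf 0 ((A 0).g x) := by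
  induction n with
  | zero => rfl
  | succ n ih =>
    rw [← ih, ← lik_comm hMP hf n]
    congr 1
    have h := (f n).base x
    have h2 : (f n).f ⊤ = ⊤ := hf n
    rw [h2, inf_top_eq] at h
    exact h.symm

/-- the embeddings -/
noncomputable def liK (n : ℕ) : BMor (A n) (liZ hMP hf) where
  toMor := likm hMP hf n
  base x := by
    have h1 : lik hMP hf n ((A n).g x) = lik hMP hf 0 ((A 0).g x) ⊓ lik hMP hf n ⊤ := by
      rw [lik_base, lik_top, inf_top_eq]
    exact h1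

theorem li_iInf {t : ∀ n, El (A n).B} (ht : Thr f t) :
    lic A t ∈ (⨅ n, lik hMP hf n (t n)).val :=
  (rs_iInf _ _).2 ⟨lic_mem.2 ht, fun _ => (mem_lik hMP hf).2 ⟨ht, le_rfl⟩⟩

theorem li_Lim (hinj : ∀ n x, f n x = ⊥ → x = ⊥) : Lim A f (liZ hMP hf) (liK hMP hf) where
  unit := hf
  inj := hinj
  kunit n := lik_top hMP hf n
  comm n x := lik_comm hMP hf n x
  thr t ht := by
    refine ⟨(rs_ne_bot _).2 ⟨_, li_iInf hMP hf ht⟩, fun n => ?_⟩
    show sInf {b | (⨅ m, lik hMP hf m (t m)) ≤ lik hMP hf n b} = t n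
    apply le_antisymm
    · exact sInf_le (iInf_le (fun m => lik hMP hf m (t m)) n)
    · refine le_sInf fun b hb => ?_
      exact ((mem_lik hMP hf).1 (li_le.1 hb t ht (li_iInf hMP hf ht))).2
  dns z hz := by
    obtain ⟨p, hp⟩ := (rs_ne_bot (P := liT A f) (le := lile A) z).1 hz
    obtain ⟨t, ht, rfl⟩ := mem_liT.1 (rs_sub (P := liT A f) (le := lile A) z hp)
    refine ⟨t, ht, ?_⟩
    show (⨅ n, lik hMP hf n (t n)) ≤ (z : El (liB A f))
    rw [li_le]
    intro s hs h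
    refine rs_down (P := liT A f) (le := lile A) z hp (lic_mem.2 hs) (lile_iff.2 fun n => ?_)
    exact ((mem_lik hMP hf).1 (((rs_iInf _ _).1 h).2 n)).2

end

theorem pf_LI (hMP : T_MP) : T_LI := by
  intro A f hf hinj
  refine ⟨liZ hMP hf, liK hMP hf, li_Lim hMP hf hinj, ?_⟩
  intro ρ hρ hA
  refine pr_rank (P := liT A f) (le := lile A) (n := 3) ?_
  intro p hp
  obtain ⟨t, ht, rfl⟩ := mem_liT.1 hp
  have h1 : lic A t ⊆ V_ (ρ + 2) := by
    intro z hz
    obtain ⟨n, rfl⟩ := ZFSet.mem_range.1 hz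
    refine pr_pair_rank ?_ ((ZFSet.isTransitive_vonNeumann ρ).mem_trans (t n).mem (hA n))
    rw [ZFSet.mem_vonNeumann, Ordinal.rank_toZFSet]
    exact (Ordinal.natCast_lt_omega0 n).trans_le hρ
  rw [ZFSet.mem_vonNeumann]
  refine (ZFSet.subset_vonNeumann.1 h1).trans_lt ?_
  exact (add_lt_add_iff_left ρ).2 (by norm_num)

end SF
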