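import Pool.Agent.H45.SF.G1

/-!
# MP_3b3fc8_lc, module G3: mixing of good morphisms
-/

set_option linter.unusedVariables false

open Ordinal Cardinal Order Set
open scoped ZFSet

namespace SF.H87

open SF SF.H45

theorem g3_ex {B : V} {J : Type 1} [Small.{0} J] (e : J → El B) (he : Function.Injective e)
    (G : J → V) : ∀ y ∈ (ZFSet.range fun s : J => (e s).val),
      ∃! z, ZFSet.pair y z ∈ (ZFSet.range fun s : J => ZFSet.pair (e s).val (G s)) := by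
  intro y hy
  obtain ⟨s, rfl⟩ := ZFSet.mem_range.1 hy
  refine ⟨G s, ZFSet.mem_range.2 ⟨s, rfl⟩, ?_⟩
  intro z hz
  obtain ⟨s2, hs2⟩ := ZFSet.mem_range.1 hz
  obtain ⟨h1, h2⟩ := ZFSet.pair_inj.1 hs2
  have h3 : s2 = s := he (El.ext h1)
  rw [← h2, h3]

theorem g3_dfb : Dfb ZFm (fun _ v => ∃ s ∈ v 1, ∀ x ∈ v 0, x ∈ s) :=
  Dfb.bex (R := fun _ v => ∀ x ∈ v 1, x ∈ v 0) ktr_zfm (Tm.var 1)
    (Dfb.ball (R := fun _ v => v 0 ∈ v 1) ktr_zfm (Tm.var 1) (Dfb.mem (Tm.var 0) (Tm.var 1)))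

theorem g3 (hMB : T_MB) (hZN : T_ZN) (hTR : T_TR) (hAM : T_AM) (hAP : T_AP) (hAF : T_AF)
    (hAD : T_AD) (hBR : T_BR) (hBJ : T_BJ) : T_G3 := by
  classical
  intro A C h S hSup hSdis hSgood
  obtain ⟨hmono, hbot, -⟩ := hMB A.B C.B h.toMor
  have hSgood' : ∀ s ∈ S, ∃ p : V, ∀ F : Frame (h.res s) p, ∀ q ∈ F.N',
    ∃ c σ', IsLift F q c σ' := hSgood
  choose! ps hps using hSgood'
  let J0 : Type 1 := {s : El C.B // s ∈ S ∧ s ≠ ⊥}
  have hinj : Function.Injective (fun s : J0 => s.1) := Subtype.val_injective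
  let Sz : V := ZFSet.range fun s : J0 => s.1.val
  let Pf : V := ZFSet.range fun s : J0 => ZFSet.pair s.1.val (ps s.1)
  let Gf : V := ZFSet.range fun s : J0 => ZFSet.pair s.1.val (h.res s.1).gr
  let Zd : V := C.B.sep fun c => c ∩ (h ⊤).val = ∅ ∨ ∃ s ∈ Sz, c ⊆ s
  refine ⟨ZFSet.pair Sz (ZFSet.pair Pf (ZFSet.pair Gf Zd)), ?_⟩
  intro F q hq
  have hM := F.map
  have hnp := F.np
  have hb := F.ne
  have hzf : ZFm (· ∈ F.N') := (hZN A.B F.N' F.N F.b F.σ hnp hM hb).toZFm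
  obtain ⟨hAP1, -, hAP3, htr, -, -⟩ := hAP A.B F.N' F.N F.b F.σ hnp hM hb
  have trN : ∀ {x y : V}, x ∈ y → y ∈ F.N' → x ∈ F.N' := fun hxy hy => htr _ hy hxy
  have kmem : ∀ {x X X2 y : V}, F.σ X X2 = F.b → F.σ x y ≠ ⊥ → (x ∈ X ↔ y ∈ X2) := by
    intro x X X2 y hX hxy
    refine (hAM A.B F.N' F.N F.b F.σ hnp hM x y X X2 ?_).1
    rw [hX, inf_eq_left.2 (g1_le hM x y)]
    exact hxy
  have pprN : ∀ {x y z : V}, ZFSet.pair x y ∈ z → z ∈ F.N' → x ∈ F.N' ∧ y ∈ F.N' :=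
    fun hxy hz => hzf.of_pair_mem hz hxy
  obtain ⟨Sz', hSz', r1, -, -, kS, kr1⟩ := g1_dec hAP hnp hM hb F.kp
  obtain ⟨Pf', hPf', r2, -, -, kP, kr2⟩ := g1_dec hAP hnp hM hb kr1
  obtain ⟨Gf', hGf', Zd', hZd', -, kG, kZ⟩ := g1_dec hAP hnp hM hb kr2
  have hCN : F.C' ∈ F.N' := (hM.dom _ _ (by rw [F.kC]; exact hb)).1
  have hhN : F.h' ∈ F.N' := (hM.dom _ _ (by rw [F.kh]; exact hb)).1
  have hGN : ∀ {x}, x ∈ F.G' → x ∈ F.N' := fun hx => trN (F.gen.sub hx) hCN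
  have memSz : ∀ {z : V}, z ∈ Sz → ∃ s : El C.B, s ∈ S ∧ s ≠ ⊥ ∧ s.val = z := by
    intro z hz
    obtain ⟨s, hs⟩ := ZFSet.mem_range.1 hz
    exact ⟨s.1, s.2.1, s.2.2, hs⟩
  have Szmem : ∀ {s : El C.B}, s ∈ S → s ≠ ⊥ → s.val ∈ Sz := fun {s} h1 h2 =>
    ZFSet.mem_range.2 ⟨⟨s, h1, h2⟩, rfl⟩
  -- the dense set
  have hADx := hAD A.B F.N' F.N F.b F.σ hnp hM hb F.C' C.B F.kC Zd' Zd (by rw [kZ]; exact hb)
  have hZsub : Zd ⊆ C.B := fun z hz => (ZFSet.mem_sep.1 hz).1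
  have hZdense : ∀ x ∈ C.B, x ≠ ∅ → ∃ d ∈ Zd, d ≠ ∅ ∧ d ⊆ x := by
    intro x hx hx0
    by_cases h1 : x ∩ (h ⊤).val = ∅
    · exact ⟨x, ZFSet.mem_sep.2 ⟨hx, Or.inl h1⟩, hx0, fun z hz => hz⟩
    · have h2 : (⟨x, hx⟩ : El C.B) ⊓ h ⊤ ≠ ⊥ := by
        intro h3
        apply h1
        have h4 := congrArg El.val h3
        rw [El.inf_val, El.bot_val] at h4
        exact h4
      have h3 : ∃ s ∈ S, (⟨x, hx⟩ : El C.B) ⊓ s ≠ ⊥ := by
        by_contra hcon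
        push Not at hcon
        apply h2
        rw [← hSup, inf_sSup_eq]
        refine le_bot_iff.1 (iSup_le fun s => iSup_le fun hs => (hcon s hs).le)
      obtain ⟨s, hs, hxs⟩ := h3
      have hs0 : s ≠ ⊥ := fun h => hxs (by rw [h, inf_bot_eq])
      refine ⟨((⟨x, hx⟩ : El C.B) ⊓ s).val, ZFSet.mem_sep.2 ⟨El.mem _, Or.inr ⟨s.val,
        Szmem hs hs0, ?_⟩⟩, ?_, ?_⟩
      · rw [El.inf_val]
        exact fun z hz => (ZFSet.mem_inter.1 hz).2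
      · intro h4
        exact hxs (El.ext (by rw [h4, El.bot_val]))
      · rw [El.inf_val]
        exact fun z hz => (ZFSet.mem_inter.1 hz).1
  obtain ⟨d, hdZ, hdG⟩ := F.gen.meets Zd' hZd' (hADx.1.2 hZsub) (hADx.2.2 hZdense)
  -- a pair in `h'` with second component in `G'`
  obtain ⟨x0, y0, hxy0, hy0⟩ := F.top
  obtain ⟨hx0, hy0N⟩ := pprN hxy0 hhN
  -- the member of `S'` in `G'`
  obtain ⟨s', hs'S, hds'⟩ : ∃ s' ∈ Sz', ∀ x ∈ d, x ∈ s' := by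
    obtain ⟨X0, hX0⟩ := g1_pick hM hx0 le_rfl hb
    obtain ⟨Y0, hY0⟩ := g1_pick hM hy0N (inf_le_left : F.b ⊓ F.σ x0 X0 ≤ F.b) hX0
    obtain ⟨D, hD⟩ := g1_pick hM (hGN hdG)
      ((inf_le_left.trans inf_le_left) : F.b ⊓ F.σ x0 X0 ⊓ F.σ y0 Y0 ≤ F.b) hY0
    have e0 : F.σ (ZFSet.pair x0 y0) (ZFSet.pair X0 Y0) ≠ ⊥ :=
      g1_mono ((le_inf (inf_le_left.trans (inf_le_left.trans inf_le_right))
        (inf_le_left.trans inf_le_right)).trans ((hAP1 x0 hx0 y0 hy0N).2.1 X0 Y0)) hD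
    obtain ⟨u0, hu0, hu1⟩ := (g1_gr h.toMor).1 ((kmem F.kh e0).1 hxy0)
    have e1 : F.σ (d ∩ y0) (D ∩ Y0) ≠ ⊥ :=
      g1_mono ((le_inf inf_le_right (inf_le_left.trans inf_le_right)).trans
        ((hAP3 d (hGN hdG) y0 hy0N).2 D Y0)) hD
    have h1 : d ∩ y0 ≠ ∅ := by
      intro h2
      exact F.gen.bot (h2 ▸ F.gen.inter d hdG y0 hy0)
    have h2 : D ∩ Y0 ≠ ∅ := by
      intro h3
      exact h1 ((hAM A.B F.N' F.N F.b F.σ hnp hM _ _ _ _ (by rw [inf_idem]; exact e1)).2.2.2.2 h3)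
    have eD : F.σ d D ≠ ⊥ := g1_mono inf_le_right hD
    have h3 : D ∈ Zd := (kmem kZ eD).1 hdZ
    obtain ⟨h4, h5⟩ := ZFSet.mem_sep.1 h3
    have h6 : ∃ s ∈ Sz, D ⊆ s := by
      rcases h5 with h5 | h5
      · exfalso
        apply h2
        rw [ZFSet.eq_empty]
        intro z hz
        obtain ⟨hz1, hz2⟩ := ZFSet.mem_inter.1 hz
        have h7 : (h u0).val ⊆ (h ⊤).val := El.le_iff.1 (hmono _ _ le_top)
        have h8 : z ∈ D ∩ (h ⊤).val := ZFSet.mem_inter.2 ⟨hz1, h7 (by rw [hu1]; exact hz2)⟩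
        rw [h5] at h8
        exact ZFSet.notMem_empty _ h8
      · exact h5
    have h7 := hTR _ g3_dfb A.B F.N' F.N F.b F.σ hnp hM {(d, D), (Sz', Sz)} (by
      rw [Finset.inf_insert, Finset.inf_singleton]
      show F.σ d D ⊓ F.σ Sz' Sz ≠ ⊥
      rw [kS, inf_eq_left.2 (g1_le hM d D)]
      exact eD) (fun i => match i with | 0 => (d, D) | _ + 1 => (Sz', Sz)) (by
      intro i
      cases i with
      | zero => simp
      | succ i => simp)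
    exact h7.2 h6
  have hs'N : s' ∈ F.N' := trN hs'S hSz'
  have hs'C : s' ∈ F.C' := by
    obtain ⟨z, hz⟩ := g1_pick hM hs'N le_rfl hb
    have e1 : F.σ s' z ≠ ⊥ := g1_mono inf_le_right hz
    obtain ⟨s, -, -, rfl⟩ := memSz ((kmem kS e1).1 hs'S)
    exact (kmem F.kC e1).2 s.mem
  have hs'G : s' ∈ F.G' := F.gen.up d hdG s' hs'C hds'
  -- the index set
  let J : Type 1 := {s : El C.B // s ∈ S ∧ s ≠ ⊥ ∧ F.σ s' s.val ≠ ⊥}
  have hbsup : ⨆ j : J, F.σ s' j.1.val = F.b := by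
    apply le_antisymm
    · exact iSup_le fun j => g1_le hM _ _
    · rw [← hM.tot s' hs'N]
      refine iSup_le fun z => ?_
      by_cases h1 : F.σ s' z = ⊥
      · rw [h1]; exact bot_le
      · obtain ⟨s, hs1, hs2, rfl⟩ := memSz ((kmem kS h1).1 hs'S)
        exact le_iSup (fun j : J => F.σ s' j.1.val) ⟨s, hs1, hs2, h1⟩
  have hkey : ∀ j : J, ∃ (c : El C.B) (σ' : V → V → El C.B), c ≤ h (F.σ s' j.1.val) ⊓ j.1 ∧
      (∀ x, c ≤ h x → F.σ s' j.1.val ≤ x) ∧ BMap F.N' F.N c σ' ∧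
      (∀ x ∈ F.G', ∀ z, σ' x z ≤ mkEl C.B z) ∧ (∀ z, c ⊓ h (F.σ q z) ≤ σ' q z) := by
    rintro ⟨s, hsS, hs0, hbs⟩
    have hbsle : F.σ s' s.val ≤ F.b := g1_le hM _ _
    obtain ⟨-, hn, hhnN, hhn1, -, hhn2⟩ := hAF A.B F.N' F.N F.b F.σ hnp hM hb Gf' Gf Sz' Sz kG kS
      (g3_ex (fun s : J0 => s.1) hinj _) s' hs'S
    obtain ⟨-, pn, hpnN, -, -, hpn2⟩ := hAF A.B F.N' F.N F.b F.σ hnp hM hb Pf' Pf Sz' Sz kP kS
      (g3_ex (fun s : J0 => s.1) hinj _) s' hs'S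
    have hkn : F.σ s' s.val ≤ F.σ hn (h.res s).gr :=
      hhn2 _ _ (ZFSet.mem_range.2 ⟨⟨s, hsS, hs0⟩, rfl⟩)
    have hkpn : F.σ s' s.val ≤ F.σ pn (ps s) :=
      hpn2 _ _ (ZFSet.mem_range.2 ⟨⟨s, hsS, hs0⟩, rfl⟩)
    have hk : ∀ {x y : V}, F.σ x y = F.b → F.σ x y ⊓ F.σ s' s.val = F.σ s' s.val := by
      intro x y hxy
      rw [hxy]
      exact inf_eq_right.2 hbsle
    have hmap : BMap F.N' F.N (F.σ s' s.val) (fun x y => F.σ x y ⊓ F.σ s' s.val) :=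
      hBR A.B A.B F.N' F.N F.b F.σ (Mor.id A.B) F.map _ hbsle
    -- membership in `hn`
    have kn : ∀ {x y X Y : V}, x ∈ F.N' → y ∈ F.N' →
        F.σ s' s.val ⊓ F.σ x X ⊓ F.σ y Y ≠ ⊥ →
        (ZFSet.pair x y ∈ hn ↔ ZFSet.pair X Y ∈ (h.res s).gr) := by
      intro x y X Y hx hy hne
      refine (hAM A.B F.N' F.N F.b F.σ hnp hM (ZFSet.pair x y) (ZFSet.pair X Y) hn
        (h.res s).gr ?_).1
      refine g1_mono (le_inf ?_ ?_) hne
      · exact (le_inf (inf_le_left.trans inf_le_right) inf_le_right).trans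
          ((hAP1 x hx y hy).2.1 X Y)
      · exact (inf_le_left.trans inf_le_left).trans hkn
    have vres : ∀ u : El A.B, ((h.res s) u).val = (h u).val ∩ s.val := fun u => El.inf_val _ _
    let F1 : Frame (h.res s) (ps s) :=
      { N' := F.N', N := F.N, b := F.σ s' s.val, σ := fun x y => F.σ x y ⊓ F.σ s' s.val,
        w := F.w, B' := F.B', C' := F.C', h' := hn, p' := pn, G' := F.G', np := hnp,
        ne := hbs, map := hmap, kw := hk F.kw, kB := hk F.kB, kC := hk F.kC,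
        kh := inf_eq_right.2 hkn, kp := inf_eq_right.2 hkpn, gen := F.gen,
        top := by
          refine ⟨x0, y0 ∩ s', ?_, F.gen.inter y0 hy0 s' hs'G⟩
          obtain ⟨X0, hX0⟩ := g1_pick hM hx0 hbsle hbs
          obtain ⟨Y0, hY0⟩ := g1_pick hM hy0N
            (inf_le_left.trans hbsle : F.σ s' s.val ⊓ F.σ x0 X0 ≤ F.b) hX0
          have e0 : F.σ (ZFSet.pair x0 y0) (ZFSet.pair X0 Y0) ≠ ⊥ :=
            g1_mono ((le_inf (inf_le_left.trans inf_le_right) inf_le_right).trans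
              ((hAP1 x0 hx0 y0 hy0N).2.1 X0 Y0)) hY0
          obtain ⟨u0, hu0, hu1⟩ := (g1_gr h.toMor).1 ((kmem F.kh e0).1 hxy0)
          refine (kn hx0 (hAP3 y0 hy0N s' hs'N).1 (Y := Y0 ∩ s.val) (X := X0) ?_).2 ?_
          · refine g1_mono (le_inf inf_le_left ?_) hY0
            exact (le_inf inf_le_right (inf_le_left.trans inf_le_left)).trans
              ((hAP3 y0 hy0N s' hs'N).2 Y0 s.val)
          · exact (g1_gr (h.res s).toMor).2 ⟨u0, hu0, by rw [vres, hu1]⟩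
        com := by
          intro x y hxy hy z
          obtain ⟨hx, hyN⟩ := pprN hxy hhnN
          obtain ⟨X, hX⟩ := g1_pick hM hx hbsle hbs
          obtain ⟨Y, hY⟩ := g1_pick hM hyN
            (inf_le_left.trans hbsle : F.σ s' s.val ⊓ F.σ x X ≤ F.b) hX
          obtain ⟨u, hu, huY⟩ := (g1_gr (h.res s).toMor).1 ((kn hx hyN hY).1 hxy)
          rw [vres] at huY
          have ex : F.σ x X ≠ ⊥ := g1_mono (inf_le_left.trans inf_le_right) hY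
          have hxB : x ∈ F.B' := (kmem F.kB ex).2 (by rw [← hu]; exact u.mem)
          obtain ⟨-, y1, hy1N, hy1, -, hy1s⟩ := hAF A.B F.N' F.N F.b F.σ hnp hM hb F.h' h.gr
            F.B' A.B F.kh F.kB (g1_ex h.toMor) x hxB
          have e1 : F.σ x X ≤ F.σ y1 (h u).val := hy1s _ _ ((g1_gr h.toMor).2 ⟨u, hu, rfl⟩)
          have e2 : F.σ s' s.val ⊓ F.σ x X ⊓ F.σ y Y ≤
              F.σ (y1 ∩ s') ((h u).val ∩ s.val) ⊓ F.σ y Y := by
            refine le_inf ?_ inf_le_right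
            exact (le_inf ((inf_le_left.trans inf_le_right).trans e1)
              (inf_le_left.trans inf_le_left)).trans
              ((hAP3 y1 hy1N s' hs'N).2 (h u).val s.val)
          have e3 : y1 ∩ s' = y :=
            (hAM A.B F.N' F.N F.b F.σ hnp hM _ _ _ _ (g1_mono e2 hY)).2.1.2 huY
          have hy1C : y1 ∈ F.C' := (kmem F.kC (g1_mono e1 ex)).2 (h u).mem
          have hy1G : y1 ∈ F.G' := by
            refine F.gen.up y hy y1 hy1C ?_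
            rw [← e3]
            exact fun z hz => (ZFSet.mem_inter.1 hz).1
          exact inf_le_left.trans (F.com x y1 ((hy1 y1).2 rfl) hy1G z)
        sc := fun r hr => hbsle.trans (F.sc r hr) }
    obtain ⟨c, σ', L⟩ := hps s hsS F1 q hq
    have Lle : c ≤ h (F.σ s' s.val) ⊓ s := L.le
    refine ⟨c, σ', Lle, ?_, L.map, L.com, ?_⟩
    · intro x hx
      exact L.proj x (le_inf hx (Lle.trans inf_le_right))
    · intro z
      refine le_trans ?_ (L.keep z)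
      show c ⊓ h (F.σ q z) ≤ c ⊓ (h (F.σ q z ⊓ F.σ s' s.val) ⊓ s)
      rw [h.inf]
      exact le_inf inf_le_left (le_inf (le_inf inf_le_right (inf_le_left.trans
        (Lle.trans inf_le_left))) (inf_le_left.trans (Lle.trans inf_le_right)))
  choose c τ hc1 hc2 hc3 hc4 hc5 using hkey
  have hcd : ∀ i j : J, i ≠ j → c i ⊓ c j = ⊥ := by
    intro i j hij
    refine le_bot_iff.1 ?_
    calc c i ⊓ c j ≤ i.1 ⊓ j.1 :=
          inf_le_inf ((hc1 i).trans inf_le_right) ((hc1 j).trans inf_le_right)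
      _ = ⊥ := hSdis i.1 i.2.1 j.1 j.2.1 (fun e => hij (Subtype.ext e))
      _ ≤ ⊥ := le_rfl
  refine ⟨⨆ j, c j, fun x y => ⨆ j, τ j x y, ?_⟩
  refine ⟨?_, ?_, ?_, ?_, ?_⟩
  · exact iSup_le fun j => (hc1 j).trans (inf_le_left.trans (hmono _ _ (g1_le hM _ _)))
  · intro x hx
    rw [← hbsup]
    exact iSup_le fun j => hc2 j x ((le_iSup c j).trans hx)
  · exact hBJ C.B F.N' F.N J c τ hcd hc3
  · intro x hx z
    exact iSup_le fun j => hc4 j x hx z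
  · intro z
    rw [iSup_inf_eq]
    exact iSup_le fun j => (hc5 j z).trans (le_iSup (fun j => τ j q z) j)

end SF.H87
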